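import Mathlib
import Pool.Agent.H50.ShiftProd

namespace Pool.Agent.Results.MP_fd999f_co.NoCapture

open Pointwise

theorem result (c₃ c₄ δ : ℝ) (h3 : 0 < c₃) (h4 : 0 < c₄) (hδ : 0 < δ) (N : ℕ) :
    ∃ A : Finset ℕ, 0 ∉ A ∧ N ≤ A.card ∧ N ≤ (A * A).card ∧ ∀ E F : Finset ℕ,
      ¬ (((A * A).card : ℝ) ^ δ ≤ E.card ∧ ((A * A).card : ℝ) ^ δ ≤ F.card ∧
        ((E * F).card : ℝ) ≤ c₃ * (A * A).card ∧
        c₄ * (A * A).card ≤ (((A * A).image (· + 1) ∩ (E * F)).card : ℝ)) :=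
  Pool.Agent.H50.ShiftProd.main c₃ c₄ δ h3 h4 hδ N

end Pool.Agent.Results.MP_fd999f_co.NoCapture
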